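import Pool.Agent.BEH.Stmts

/-!
# Squad BEH (MP_be01ff_an), row HOL: a hole at a Lebesgue point
-/

set_option autoImplicit false

namespace Pool.Agent.BEH.H43

open Set Filter Topology MeasureTheory
open scoped InnerProductSpace ENNReal
open Pool.Agent.BE01 Pool.Agent.BEL Pool.Agent.BEH

/-- the value of the charge -/
theorem hol_val {d : ℕ} {B R D γ r κ' : ℝ} {f : En d → ℝ} {x : En d} {ψ g h : En d → ℝ}
    (hf : Bm B f) (hr : 0 < r) (hR : 0 < R) (hD : 0 < D) (hF : Fld x R D γ r ψ g h)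
    (hl : ∫ y in Metric.closedBall x r, |f y - f x| ≤ κ' * r ^ d) :
    |(∫ y, f y * g y) - f x| ≤ D * R ^ d * κ' := by
  have hgz : ∀ y, y ∉ Metric.closedBall x r → g y = 0 := by
    intro y hy
    refine hF.g_supp y ?_
    rw [Metric.mem_closedBall, dist_eq_norm, not_le] at hy
    exact hy.le
  have hgs : HasCompactSupport g :=
    HasCompactSupport.intro (isCompact_closedBall x r) fun y hy => hgz y hy
  have hgi : Integrable g := hF.g_cont.integrable_of_hasCompactSupport hgs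
  have hfg : Integrable (fun y => f y * g y) :=
    hgi.bdd_mul hf.1.aestronglyMeasurable (ae_of_all _ fun y => hf.2 y)
  have h1 : (∫ y, f y * g y) - f x = ∫ y, (f y - f x) * g y := by
    have h2 : f x = ∫ y, f x * g y := by
      rw [integral_const_mul, hF.g_int, mul_one]
    conv_lhs => rw [h2]
    rw [← integral_sub hfg (hgi.const_mul (f x))]
    refine integral_congr_ae (ae_of_all _ fun y => ?_)
    ring
  have h3 : Integrable (fun y => (f y - f x) * g y) := by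
    have := hfg.sub (hgi.const_mul (f x))
    refine this.congr (ae_of_all _ fun y => ?_)
    simp only [Pi.sub_apply]
    ring
  have h4 : |∫ y, (f y - f x) * g y| ≤ ∫ y, |f y - f x| * g y := by
    rw [← Real.norm_eq_abs]
    refine (norm_integral_le_integral_norm (fun y => (f y - f x) * g y)).trans (le_of_eq ?_)
    refine integral_congr_ae (ae_of_all _ fun y => ?_)
    simp only [norm_mul, Real.norm_eq_abs, abs_of_nonneg (hF.g_nonneg y)]
  have h5 : ∫ y, |f y - f x| * g y = ∫ y in Metric.closedBall x r, |f y - f x| * g y := by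
    exact (setIntegral_eq_integral_of_forall_compl_eq_zero
      (fun y hy => by rw [hgz y hy, mul_zero])).symm
  have hrd : 0 < r ^ d := pow_pos hr d
  have hfi : IntegrableOn (fun y => |f y - f x|) (Metric.closedBall x r) := by
    have hfin : volume (Metric.closedBall x r) ≠ ⊤ := measure_closedBall_lt_top.ne
    refine Measure.integrableOn_of_bounded (M := 2 * B) hfin ?_ ?_
    · exact ((hf.1.sub_const (f x)).norm).aestronglyMeasurable
    · refine ae_of_all _ fun y => ?_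
      rw [Real.norm_eq_abs, abs_abs]
      have ha := hf.2 y
      have hb := hf.2 x
      calc |f y - f x| ≤ |f y| + |f x| := abs_sub _ _
        _ ≤ 2 * B := by linarith
  have h6 : ∫ y in Metric.closedBall x r, |f y - f x| * g y ≤
      ∫ y in Metric.closedBall x r, |f y - f x| * (D * R ^ d / r ^ d) := by
    refine integral_mono_ae ?_ (hfi.mul_const _) (ae_of_all _ fun y => ?_)
    · have h7 : Integrable (fun y => |f y - f x| * g y) := by
        refine h3.norm.congr (ae_of_all _ fun y => ?_)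
        simp only [norm_mul, Real.norm_eq_abs, abs_of_nonneg (hF.g_nonneg y)]
      exact h7.integrableOn
    · exact mul_le_mul_of_nonneg_left (hF.g_le y) (abs_nonneg _)
  rw [integral_mul_const] at h6
  have h8 : 0 ≤ D * R ^ d / r ^ d := by positivity
  have h9 : (∫ y in Metric.closedBall x r, |f y - f x|) * (D * R ^ d / r ^ d) ≤
      κ' * r ^ d * (D * R ^ d / r ^ d) := mul_le_mul_of_nonneg_right hl h8
  have h10 : κ' * r ^ d * (D * R ^ d / r ^ d) = D * R ^ d * κ' := by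
    field_simp
  rw [h1]
  linarith

theorem sph_pos (d : ℕ) : 0 < sph d := by
  unfold sph
  split_ifs
  · positivity
  · positivity

theorem hol_aux {d : ℕ} (hd : d = 2 ∨ d = 3) {A : ℝ} {θ θ' : ℝ → ℝ} (hA : 0 < A)
    (hP : Prof A θ θ') (hfg : HfgStmt) {R : ℝ} (hR : 0 < R) {N : ℕ} {B : ℝ}
    {f : Fin N → En d → ℝ} {x : En d} {κ : ℝ} (hf : ∀ i, Bm B (f i)) (hl : ∀ i, Leb (f i) x)
    (hκ : 0 < κ) (rr : ℝ → ℝ)
    (hr : ∀ ρ : ℝ, 0 < ρ → ∃ γ₀ : ℝ, 0 < γ₀ ∧ ∀ γ, 0 < γ → γ < γ₀ → 0 < rr γ ∧ rr γ < ρ)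
    (hcut : ∃ γ₀ : ℝ, 0 < γ₀ ∧ ∀ γ, 0 < γ → γ < γ₀ → ∃ η : En d → ℝ, Cut f x R κ γ (rr γ) η)
    (hen : ∃ γ₀ : ℝ, 0 < γ₀ ∧ ∀ γ, 0 < γ → γ < γ₀ →
      (sph d)⁻¹ * (∫ ρ in (rr γ / 2)..R, (ρ ^ (d - 1))⁻¹) ≤ 2 / γ) :
    ∃ γ₀ : ℝ, 0 < γ₀ ∧ ∀ γ : ℝ, 0 < γ → γ < γ₀ →
    ∃ (r : ℝ) (η ψ g h : En d → ℝ), 0 < r ∧ r < R ∧ Cut f x R κ γ r η ∧
      Fld x R (A * 2 ^ (d - 1) / (sph d * R ^ d)) γ r ψ g h ∧
      ∀ i, |(∫ y, f i y * g y) - f i x| ≤ κ := by
  have hs := sph_pos d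
  set D : ℝ := A * 2 ^ (d - 1) / (sph d * R ^ d) with hD
  have hD0 : 0 < D := by positivity
  obtain ⟨h, hh⟩ := hfg d A θ θ' hd hA hP x R hR
  set κ' : ℝ := κ / (D * R ^ d) with hκ'
  have hκ0 : 0 < κ' := by positivity
  have h1 : ∀ i, ∃ ρ₀ : ℝ, 0 < ρ₀ ∧ ∀ ρ : ℝ, 0 < ρ → ρ ≤ ρ₀ →
      ∫ y in Metric.closedBall x ρ, |f i y - f i x| ≤ κ' * ρ ^ d := fun i => hl i κ' hκ0
  choose ρ₀ hρ₀ hρ using h1
  -- a common radius
  obtain ⟨ρ, hρpos, hρR, hρle⟩ : ∃ ρ : ℝ, 0 < ρ ∧ ρ ≤ R ∧ ∀ i, ρ ≤ ρ₀ i := by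
    rcases isEmpty_or_nonempty (Fin N) with hN | hN
    · exact ⟨R, hR, le_refl _, fun i => (hN.false i).elim⟩
    · refine ⟨min R (Finset.univ.inf' Finset.univ_nonempty ρ₀), ?_, min_le_left _ _, ?_⟩
      · refine lt_min hR ?_
        rw [Finset.lt_inf'_iff]
        intro i _
        exact hρ₀ i
      · intro i
        exact (min_le_right _ _).trans (Finset.inf'_le _ (Finset.mem_univ i))
  obtain ⟨γ₁, hγ₁, h₁⟩ := hr ρ hρpos
  obtain ⟨γ₂, hγ₂, h₂⟩ := hcut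
  obtain ⟨γ₃, hγ₃, h₃⟩ := hen
  refine ⟨min γ₁ (min γ₂ γ₃), lt_min hγ₁ (lt_min hγ₂ hγ₃), ?_⟩
  intro γ hγ hγlt
  have hlt1 : γ < γ₁ := hγlt.trans_le (min_le_left _ _)
  have hlt2 : γ < γ₂ := hγlt.trans_le ((min_le_right _ _).trans (min_le_left _ _))
  have hlt3 : γ < γ₃ := hγlt.trans_le ((min_le_right _ _).trans (min_le_right _ _))
  obtain ⟨hr0, hrρ⟩ := h₁ γ hγ hlt1
  obtain ⟨η, hη⟩ := h₂ γ hγ hlt2
  have hrR : rr γ < R := hrρ.trans_le hρR
  obtain ⟨ψ, g, hF⟩ := hh (rr γ) γ hr0 hrR hγ (h₃ γ hγ hlt3)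
  refine ⟨rr γ, η, ψ, g, h, hr0, hrR, hη, hF, ?_⟩
  intro i
  have h4 := hol_val (hf i) hr0 hR hD0 hF
    (hρ i (rr γ) hr0 (hrρ.le.trans (hρle i)))
  have h5 : D * R ^ d * κ' = κ := by
    rw [hκ']
    field_simp
  rwa [h5] at h4

theorem en_three {R γ : ℝ} (hR : 0 < R) (hγ : 0 < γ) :
    (sph 3)⁻¹ * (∫ ρ in (γ / (4 * Real.pi) / 2)..R, (ρ ^ (3 - 1))⁻¹) ≤ 2 / γ := by
  have hpi := Real.pi_pos
  have ha : 0 < γ / (4 * Real.pi) / 2 := by positivity
  have h1 : ∫ ρ in (γ / (4 * Real.pi) / 2)..R, (ρ ^ (3 - 1))⁻¹ =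
      (γ / (4 * Real.pi) / 2)⁻¹ - R⁻¹ := by
    have h2 : ∀ ρ ∈ Set.uIcc (γ / (4 * Real.pi) / 2) R,
        HasDerivAt (fun ρ : ℝ => - ρ⁻¹) ((ρ ^ (3 - 1))⁻¹) ρ := by
      intro ρ hρ
      have h3 : 0 < ρ := (lt_min ha hR).trans_le (Set.mem_uIcc.1 hρ |>.elim
        (fun h => (min_le_left _ _).trans h.1) (fun h => (min_le_right _ _).trans h.1))
      have h4 := (hasDerivAt_inv h3.ne').neg
      rw [neg_neg] at h4
      exact h4
    rw [intervalIntegral.integral_eq_sub_of_hasDerivAt h2]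
    · ring
    · refine ContinuousOn.intervalIntegrable ?_
      intro ρ hρ
      have h3 : 0 < ρ := (lt_min ha hR).trans_le (Set.mem_uIcc.1 hρ |>.elim
        (fun h => (min_le_left _ _).trans h.1) (fun h => (min_le_right _ _).trans h.1))
      exact ((continuousAt_id.pow _).inv₀ (pow_pos h3 _).ne').continuousWithinAt
  rw [h1]
  have h5 : sph 3 = 4 * Real.pi := by
    unfold sph
    norm_num
  rw [h5]
  have h6 : 0 < R⁻¹ := inv_pos.2 hR
  have h7 : (4 * Real.pi)⁻¹ * ((γ / (4 * Real.pi) / 2)⁻¹ - R⁻¹) =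
      2 / γ - (4 * Real.pi)⁻¹ * R⁻¹ := by
    field_simp
  rw [h7]
  have h8 : 0 < (4 * Real.pi)⁻¹ * R⁻¹ := by positivity
  linarith

theorem en_two {R γ : ℝ} (hR : 0 < R) (hγ : 0 < γ)
    (hγ2 : γ < 2 * Real.pi / (|Real.log (2 * R)| + 1)) :
    (sph 2)⁻¹ * (∫ ρ in (Real.exp (-(2 * Real.pi / γ)) / 2)..R, (ρ ^ (2 - 1))⁻¹) ≤ 2 / γ := by
  have hpi := Real.pi_pos
  have ha : 0 < Real.exp (-(2 * Real.pi / γ)) / 2 := by positivity
  have h1 : ∫ ρ in (Real.exp (-(2 * Real.pi / γ)) / 2)..R, (ρ ^ (2 - 1))⁻¹ =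
      Real.log (2 * R) + 2 * Real.pi / γ := by
    have h2 : ∀ ρ : ℝ, (ρ ^ (2 - 1))⁻¹ = ρ⁻¹ := fun ρ => by norm_num
    simp only [h2]
    rw [integral_inv_of_pos ha hR]
    have h3 : R / (Real.exp (-(2 * Real.pi / γ)) / 2) =
        (2 * R) * Real.exp (2 * Real.pi / γ) := by
      rw [Real.exp_neg]
      field_simp
    rw [h3, Real.log_mul (by positivity) (Real.exp_pos _).ne', Real.log_exp]
  rw [h1]
  have h5 : sph 2 = 2 * Real.pi := by
    unfold sph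
    norm_num
  rw [h5]
  have h6 : (2 * Real.pi)⁻¹ * (Real.log (2 * R) + 2 * Real.pi / γ) =
      Real.log (2 * R) / (2 * Real.pi) + 1 / γ := by
    field_simp
  rw [h6]
  have h7 : |Real.log (2 * R)| + 1 < 2 * Real.pi / γ := by
    rw [lt_div_iff₀ (by positivity)] at hγ2
    rw [lt_div_iff₀ hγ]
    linarith
  have h8 : Real.log (2 * R) / (2 * Real.pi) ≤ 1 / γ := by
    rw [div_le_div_iff₀ (by positivity) hγ]
    rw [lt_div_iff₀ hγ] at h7
    have h9 := le_abs_self (Real.log (2 * R))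
    nlinarith
  have h10 : 2 / γ = 1 / γ + 1 / γ := by ring
  rw [h10]
  linarith

theorem hol (the : TheStmt) (hu3 : Hu3Stmt) (hu2 : Hu2Stmt) (hfg : HfgStmt) : HolStmt := by
  intro d hd R hR
  obtain ⟨A, θ, θ', hA, hP⟩ := the
  have hs := sph_pos d
  refine ⟨A * 2 ^ (d - 1) / (sph d * R ^ d), by positivity, ?_⟩
  intro N B f x κ hf hl hκ
  have hpi := Real.pi_pos
  rcases hd with hd | hd
  · subst hd
    refine hol_aux (Or.inl rfl) hA hP hfg hR hf hl hκ (fun γ => Real.exp (-(2 * Real.pi / γ)))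
      ?_ (hu2 N B f x R κ hf hl hR hκ) ?_
    · intro ρ hρ
      refine ⟨2 * Real.pi * ρ, by positivity, ?_⟩
      intro γ hγ hγ2
      refine ⟨Real.exp_pos _, ?_⟩
      have h1 := Real.add_one_le_exp (2 * Real.pi / γ)
      have h2 : ρ⁻¹ < 2 * Real.pi / γ := by
        rw [lt_div_iff₀ hγ, inv_mul_lt_iff₀ hρ]
        linarith
      rw [Real.exp_neg]
      refine inv_lt_of_inv_lt₀ hρ ?_
      linarith
    · refine ⟨2 * Real.pi / (|Real.log (2 * R)| + 1), by positivity, ?_⟩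
      intro γ hγ hγ2
      exact en_two hR hγ hγ2
  · subst hd
    refine hol_aux (Or.inr rfl) hA hP hfg hR hf hl hκ (fun γ => γ / (4 * Real.pi))
      ?_ (hu3 N B f x R κ hf hl hR hκ) ?_
    · intro ρ hρ
      refine ⟨4 * Real.pi * ρ, by positivity, ?_⟩
      intro γ hγ hγ2
      refine ⟨by positivity, ?_⟩
      rw [div_lt_iff₀ (by positivity)]
      linarith
    · refine ⟨1, one_pos, ?_⟩
      intro γ hγ _
      exact en_three hR hγ

end Pool.Agent.BEH.H43
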