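import Pool.Agent.BEH.Stmts

/-!
# Squad BEH (MP_be01ff_an), row MNE: minimizers are eigenfunctions
-/

set_option autoImplicit false

namespace Pool.Agent.BEH.H43

open Set Filter Topology MeasureTheory
open scoped InnerProductSpace ENNReal
open Pool.Agent.BE01 Pool.Agent.BEL Pool.Agent.BEH

/-- the abstract statement in Hilbert spaces -/
theorem mne_abs {H V : Type*} [NormedAddCommGroup H] [InnerProductSpace ℝ H]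
    [NormedAddCommGroup V] [InnerProductSpace ℝ V] (ι : V →L[ℝ] H) (b : HilbertBasis ℕ ℝ H)
    (e : HilbertBasis ℕ ℝ V) (om : ℕ → ℝ) (hpos : ∀ k, 0 < om k) (hmono : Monotone om)
    (hrel : ∀ (k : ℕ) (G : V), ⟪b k, ι G⟫_ℝ = (om k)⁻¹ * ⟪e k, G⟫_ℝ) (G : V)
    (hG : ‖G‖ ^ 2 ≤ om 0 ^ 2 * ‖ι G‖ ^ 2) (G' : V) :
    ⟪G, G'⟫_ℝ = om 0 ^ 2 * ⟪ι G, ι G'⟫_ℝ := by
  have hsum : ∀ G' : V, HasSum (fun k => (om 0 ^ 2 * (om k)⁻¹ ^ 2) * (⟪G, e k⟫_ℝ * ⟪e k, G'⟫_ℝ))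
      (om 0 ^ 2 * ⟪ι G, ι G'⟫_ℝ) := by
    intro G'
    have h1 := (b.hasSum_inner_mul_inner (ι G) (ι G')).mul_left (om 0 ^ 2)
    refine h1.congr_fun ?_ |> fun h => h
    intro k
    rw [real_inner_comm (b k) (ι G), hrel, hrel, real_inner_comm (e k) G]
    ring
  have h1 := e.hasSum_inner_mul_inner G G
  have h2 := h1.sub (hsum G)
  have hc : ∀ k, om 0 ^ 2 * (om k)⁻¹ ^ 2 ≤ 1 := by
    intro k
    rw [← mul_pow, ← div_eq_mul_inv]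
    have h3 : om 0 / om k ≤ 1 := (div_le_one (hpos k)).2 (hmono (Nat.zero_le k))
    exact pow_le_one₀ (div_nonneg (hpos 0).le (hpos k).le) h3
  have hnn : ∀ k, 0 ≤ ⟪G, e k⟫_ℝ * ⟪e k, G⟫_ℝ -
      om 0 ^ 2 * (om k)⁻¹ ^ 2 * (⟪G, e k⟫_ℝ * ⟪e k, G⟫_ℝ) := by
    intro k
    have h3 : 0 ≤ ⟪G, e k⟫_ℝ * ⟪e k, G⟫_ℝ := by
      rw [real_inner_comm (e k) G]
      exact mul_self_nonneg _
    have h4 := hc k
    nlinarith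
  have hz : ⟪G, G⟫_ℝ - om 0 ^ 2 * ⟪ι G, ι G⟫_ℝ ≤ 0 := by
    rw [real_inner_self_eq_norm_sq, real_inner_self_eq_norm_sq]
    linarith
  have hz2 : ∀ k, ⟪G, e k⟫_ℝ * ⟪e k, G⟫_ℝ -
      om 0 ^ 2 * (om k)⁻¹ ^ 2 * (⟪G, e k⟫_ℝ * ⟪e k, G⟫_ℝ) = 0 := by
    intro k
    exact le_antisymm ((le_hasSum h2 k fun j _ => hnn j).trans hz) (hnn k)
  have hterm : ∀ k, ⟪G, e k⟫_ℝ * ⟪e k, G'⟫_ℝ =
      (om 0 ^ 2 * (om k)⁻¹ ^ 2) * (⟪G, e k⟫_ℝ * ⟪e k, G'⟫_ℝ) := by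
    intro k
    by_cases h3 : ⟪G, e k⟫_ℝ = 0
    · rw [h3]
      ring
    · have h4 := hz2 k
      rw [real_inner_comm (e k) G] at h3 h4 ⊢
      have h5 : (1 - om 0 ^ 2 * (om k)⁻¹ ^ 2) * (⟪e k, G⟫_ℝ * ⟪e k, G⟫_ℝ) = 0 := by
        linarith
      have h6 : 1 - om 0 ^ 2 * (om k)⁻¹ ^ 2 = 0 := by
        rcases mul_eq_zero.1 h5 with h | h
        · exact h
        · exact absurd h (mul_ne_zero h3 h3)
      have h7 : om 0 ^ 2 * (om k)⁻¹ ^ 2 = 1 := by linarith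
      rw [h7, one_mul]
  have h8 := e.hasSum_inner_mul_inner G G'
  have h9 := hsum G'
  have h10 : (fun k => ⟪G, e k⟫_ℝ * ⟪e k, G'⟫_ℝ) =
      fun k => (om 0 ^ 2 * (om k)⁻¹ ^ 2) * (⟪G, e k⟫_ℝ * ⟪e k, G'⟫_ℝ) := funext hterm
  rw [h10] at h8
  exact h8.unique h9

theorem mne : MneStmt := by
  intro d Ω ι b e om hS G hG G'
  exact mne_abs ι b e om hS.pos hS.mono hS.rel G hG G'

end Pool.Agent.BEH.H43
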